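import Mathlib
import Pool.Agent.H958.RO.Stm

set_option autoImplicit false

namespace Pool.Agent.H763.RO.CovB

open Finset
open scoped Classical
open Pool.Agent.W830.RD (Om)
open Pool.Agent.H958.RO

theorem main : Pool.Agent.H958.RO.S_COVB := by
  intro n E l r v b hE hmu hp
  obtain ⟨mu, hmuE, i0, hi0, hb⟩ := hmu
  obtain ⟨p0, hp0⟩ := hp
  -- strict monotonicity of mu
  have hlt1 : ∀ i < 2 * l, mu i < mu (i + 1) := by
    intro i hi
    have := hE (hmuE i hi)
    simpa [Om] using this
  have hlt : ∀ i j, i < j → j ≤ 2 * l → mu i < mu j := by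
    intro i j hij
    induction j, hij using Nat.le_induction with
    | base => intro h; exact hlt1 i (by omega)
    | succ j hij ih => intro h; exact lt_trans (ih (by omega)) (hlt1 j (by omega))
  have hadj : ∀ i < 2 * l, (GG E).Adj (mu i) (mu (i + 1)) := fun i hi =>
    ⟨(hlt1 i hi).ne, Or.inl (hmuE i hi)⟩
  -- minimal walk
  let P : ℕ → Prop := fun s => ∃ j ≤ 2 * l, ∃ p : (GG E).Walk v (mu j), p.length = s
  have hex : ∃ s, P s := ⟨p0.length, i0, hi0, p0.copy rfl hb.symm, by simp⟩
  obtain ⟨j, hj, p, hps⟩ := Nat.find_spec hex
  set s := Nat.find hex with hs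
  have hmin : ∀ s', P s' → s ≤ s' := fun s' h => Nat.find_min' hex h
  have hsr : s ≤ r := le_trans (hmin _ ⟨i0, hi0, p0.copy rfl hb.symm, rfl⟩) (by simpa using hp0)
  let q := p.bypass
  have hq : q.IsPath := p.bypass_isPath
  have hql : q.length = s := by
    apply le_antisymm
    · rw [← hps]; exact p.length_bypass_le_length
    · exact hmin _ ⟨j, hj, q, rfl⟩
  have hnotV : ∀ i < s, ∀ k ≤ 2 * l, q.getVert i ≠ mu k := by
    intro i hi k hk h
    have := hmin i ⟨k, hk, (q.take i).copy rfl h, by simp [SimpleGraph.Walk.take_length]; omega⟩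
    omega
  let f : ℕ → ℕ := fun i => if j ≤ l then j + i else j - i
  have hf2 : ∀ i ≤ l, f i ≤ 2 * l := by
    intro i hi; simp only [f]; split_ifs <;> omega
  have hf0 : f 0 = j := by simp only [f]; split_ifs <;> omega
  have hfadj : ∀ i < l, (GG E).Adj (mu (f i)) (mu (f (i + 1))) := by
    intro i hi
    simp only [f]
    split_ifs with h
    · have := hadj (j + i) (by omega)
      simpa [add_assoc] using this
    · have := hadj (j - (i + 1)) (by omega)
      rw [show j - (i + 1) + 1 = j - i by omega] at this
      exact this.symm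
  let w : Fin (s + l + 1) → Fin n := fun k =>
    if (k : ℕ) < s then q.getVert k else mu (f (k - s))
  have hmono : (∀ i j : Fin (s + l + 1), s ≤ (i : ℕ) → i < j → w i < w j) ∨
      (∀ i j : Fin (s + l + 1), s ≤ (i : ℕ) → i < j → w j < w i) := by
    by_cases h : j ≤ l
    · left
      intro a c ha hac
      have hac' : (a : ℕ) < c := hac
      have hc := c.2
      simp only [w, f, h, if_true]
      rw [if_neg (by omega), if_neg (by omega)]
      exact hlt _ _ (by omega) (by omega)
    · right
      intro a c ha hac
      have hac' : (a : ℕ) < c := hac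
      have hc := c.2
      simp only [w, f, h, if_false]
      rw [if_neg (by omega), if_neg (by omega)]
      exact hlt _ _ (by omega) (by omega)
  have hinj : Function.Injective w := by
    have key : ∀ a c : Fin (s + l + 1), a < c → w a ≠ w c := by
      intro a c hac
      have hac' : (a : ℕ) < c := hac
      have hc := c.2
      by_cases ha : (a : ℕ) < s
      · by_cases hcs : (c : ℕ) < s
        · simp only [w, ha, hcs, if_true]
          intro h
          have := hq.getVert_injOn (by simp [hql]; omega) (by simp [hql]; omega) h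
          omega
        · simp only [w, ha, hcs, if_true, if_false]
          exact hnotV _ ha _ (hf2 _ (by omega))
      · rcases hmono with h | h
        · exact (h a c (by omega) hac).ne
        · exact (h a c (by omega) hac).ne'
    intro a c h
    rcases lt_trichotomy a c with h1 | h1 | h1
    · exact absurd h (key a c h1)
    · exact h1
    · exact absurd h.symm (key c a h1)
  have hqs : q.getVert s = mu (f 0) := by
    rw [hf0, ← hql, SimpleGraph.Walk.getVert_length]
  refine ⟨s, hsr, w, by simp only [Mon, mem_filter, mem_univ, true_and]; exact ⟨hinj, hmono⟩, ?_, ?_⟩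
  · by_cases h : 0 < s
    · simp [w, h]
    · have h0 : s = 0 := by omega
      have : q.getVert 0 = mu (f 0) := by rw [← hqs, h0]
      simp only [w, Fin.val_zero, h, if_false, Nat.zero_sub]
      rw [← this]; simp
  · intro i
    have hi := i.2
    simp only [w, Fin.val_castSucc, Fin.val_succ]
    by_cases h1 : (i : ℕ) + 1 < s
    · rw [if_pos (by omega), if_pos h1]
      exact q.adj_getVert_succ (by omega)
    · by_cases h2 : (i : ℕ) + 1 = s
      · rw [if_pos (by omega), if_neg h1, show (i : ℕ) + 1 - s = 0 by omega, ← hqs]
        have h3 := q.adj_getVert_succ (i := (i : ℕ)) (by omega)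
        rwa [h2] at h3
      · rw [if_neg (by omega), if_neg h1, show (i : ℕ) + 1 - s = (i - s) + 1 by omega]
        exact hfadj _ (by omega)

end Pool.Agent.H763.RO.CovB
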